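import Pool.Agent.MP_4d6048_al.General

/-!
For a finite abelian group `X` the group
`π₁(Δ_X) = ⟨ a_i, b_j (i, j ∈ X) | a_i b_j = b_{i+j} a_{i-j} ⟩`
is residually finite if and only if the order of `X` is a power of two.
-/

namespace Pool.Agent.Results.MP_4d6048_al.Classification

open Pool.Agent.DeltaX

theorem result (X : Type*) [AddCommGroup X] [Finite X] :
    Group.ResiduallyFinite (PresentedGroup (relators X)) ↔ ∃ k : ℕ, Nat.card X = 2 ^ k := by
  constructor
  · intro h
    by_contra hX
    exact not_residuallyFinite_of_card X hX h
  · rintro ⟨k, hk⟩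
    exact residuallyFinite_of_card X k hk

end Pool.Agent.Results.MP_4d6048_al.Classification
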